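import Mathlib

set_option autoImplicit false

open Set Cardinal Topology

namespace Pool.Agent.H370Z.Rigid

/-- In an ultrametric group, any two points are exchanged by an isometry that moves every other
point by an element of a given dense subgroup. -/
lemma exists_isometry {G : Type} [NormedAddCommGroup G] [IsUltrametricDist G]
    (D : AddSubgroup G) (hD : Dense (D : Set G)) (x y : G) :
    ∃ φ ψ : G → G, Isometry φ ∧ Isometry ψ ∧ (∀ z, ψ (φ z) = z) ∧ (∀ w, φ (ψ w) = w) ∧
      φ x = y ∧ ψ y = x ∧ (∀ z, z ≠ x → φ z - z ∈ D) ∧ (∀ w, w ≠ y → ψ w - w ∈ D) := by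
  have h1 : ∀ r : ℝ, ∃ d : G, (r = 0 → d = y - x) ∧ (0 < r → d ∈ D ∧ ‖d - (y - x)‖ < r) := by
    intro r
    by_cases hr : 0 < r
    · obtain ⟨d, hd, hd'⟩ := hD.exists_dist_lt (y - x) hr
      refine ⟨d, fun h => absurd h hr.ne', fun _ => ⟨hd, ?_⟩⟩
      rwa [dist_comm, dist_eq_norm] at hd'
    · exact ⟨y - x, fun _ => rfl, fun h => absurd h hr⟩
  choose δ hδ0 hδ using h1
  have key : ∀ u : G, ‖u + (δ ‖u‖ - (y - x))‖ = ‖u‖ := by
    intro u
    rcases (norm_nonneg u).eq_or_lt with h | h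
    · rw [hδ0 _ h.symm]; simp
    · have h2 := (hδ _ h).2
      rw [IsUltrametricDist.norm_add_eq_max_of_norm_ne_norm h2.ne', max_eq_left h2.le]
  have key' : ∀ u : G, ‖u - (δ ‖u‖ - (y - x))‖ = ‖u‖ := by
    intro u
    rcases (norm_nonneg u).eq_or_lt with h | h
    · rw [hδ0 _ h.symm]; simp
    · have h2 := (hδ _ h).2
      rw [sub_eq_add_neg, IsUltrametricDist.norm_add_eq_max_of_norm_ne_norm
        (by rw [norm_neg]; exact h2.ne'), norm_neg, max_eq_left h2.le]
  have hφ : ∀ z, ‖(z + δ ‖z - x‖) - y‖ = ‖z - x‖ := by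
    intro z
    rw [← key (z - x)]
    congr 1
    rw [key (z - x)]
    abel
  have hψ : ∀ w, ‖(w - δ ‖w - y‖) - x‖ = ‖w - y‖ := by
    intro w
    rw [← key' (w - y)]
    congr 1
    rw [key' (w - y)]
    abel
  have iso : ∀ (f : G → G) (a b : G), (∀ z, ‖f z - b‖ = ‖z - a‖) →
      (∀ z z', ‖z - a‖ = ‖z' - a‖ → f z - f z' = z - z') → Isometry f := by
    intro f a b h1 h2
    refine Isometry.of_dist_eq fun z z' => ?_
    by_cases h : ‖z - a‖ = ‖z' - a‖
    · rw [dist_eq_norm, dist_eq_norm, h2 z z' h]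
    · have e1 : dist z z' = max (dist z a) (dist a z') := by
        apply IsUltrametricDist.dist_eq_max_of_dist_ne_dist
        rwa [dist_comm a z', dist_eq_norm, dist_eq_norm]
      have e2 : dist (f z) (f z') = max (dist (f z) b) (dist b (f z')) := by
        apply IsUltrametricDist.dist_eq_max_of_dist_ne_dist
        rwa [dist_comm b (f z'), dist_eq_norm, dist_eq_norm, h1, h1]
      rw [e1, e2, dist_comm b, dist_comm a, dist_eq_norm, dist_eq_norm, dist_eq_norm,
        dist_eq_norm, h1, h1]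
  refine ⟨fun z => z + δ ‖z - x‖, fun w => w - δ ‖w - y‖, ?_, ?_, ?_, ?_, ?_, ?_, ?_, ?_⟩
  · refine iso _ x y hφ fun z z' h => ?_
    simp only [h]; abel
  · refine iso _ y x hψ fun z z' h => ?_
    simp only [h]; abel
  · intro z; simp only [hφ]; abel
  · intro w; simp only [hψ]; abel
  · simp only [sub_self, norm_zero, hδ0 0 rfl]; abel
  · simp only [sub_self, norm_zero, hδ0 0 rfl]; abel
  · intro z hz
    have := (hδ _ (norm_pos_iff.mpr (sub_ne_zero.mpr hz))).1
    simpa using this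
  · intro w hw
    have := (hδ _ (norm_pos_iff.mpr (sub_ne_zero.mpr hw))).1
    simpa using D.neg_mem this

/-- A subset invariant under a dense subgroup is homogeneous (seen inside a larger set `X`). -/
lemma homogeneous_of_invariant {G : Type} [NormedAddCommGroup G] [IsUltrametricDist G]
    (D : AddSubgroup G) (hD : Dense (D : Set G)) (X Y : Set G) (hYX : Y ⊆ X)
    (hY : ∀ z ∈ Y, ∀ w, w - z ∈ D → w ∈ Y) (a b : (Subtype.val ⁻¹' Y : Set X)) :
    ∃ h : (Subtype.val ⁻¹' Y : Set X) ≃ₜ (Subtype.val ⁻¹' Y : Set X), h a = b := by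
  obtain ⟨φ, ψ, iφ, iψ, l, r, hx, hy, mφ, mψ⟩ := exists_isometry D hD a.1.1 b.1.1
  have pφ : ∀ z ∈ Y, φ z ∈ Y := by
    intro z hz
    by_cases h : z = a.1.1
    · rw [h, hx]; exact b.2
    · exact hY z hz _ (mφ z h)
  have pψ : ∀ z ∈ Y, ψ z ∈ Y := by
    intro z hz
    by_cases h : z = b.1.1
    · rw [h, hy]; exact a.2
    · exact hY z hz _ (mψ z h)
  refine ⟨{ toFun := fun z => ⟨⟨φ z.1.1, hYX (pφ _ z.2)⟩, pφ _ z.2⟩
            invFun := fun z => ⟨⟨ψ z.1.1, hYX (pψ _ z.2)⟩, pψ _ z.2⟩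
            left_inv := fun z => Subtype.ext (Subtype.ext (l _))
            right_inv := fun z => Subtype.ext (Subtype.ext (r _))
            continuous_toFun := ?_
            continuous_invFun := ?_ }, Subtype.ext (Subtype.ext hx)⟩
  · exact ((iφ.continuous.comp (continuous_subtype_val.comp continuous_subtype_val)).subtype_mk
      _).subtype_mk _
  · exact ((iψ.continuous.comp (continuous_subtype_val.comp continuous_subtype_val)).subtype_mk
      _).subtype_mk _

/-- Transfinite recursion with choices. -/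
lemma exists_rec {ι β : Type} [LinearOrder ι] [WellFoundedLT ι] [Nonempty β]
    (Q : ι → Set β → β → Prop) :
    ∃ F : ι → β, ∀ a, (∃ p, Q a (F '' Iio a) p) → Q a (F '' Iio a) (F a) := by
  let step : (a : ι) → ((b : ι) → b < a → β) → β := fun a prev =>
    Classical.epsilon (Q a {p | ∃ b, ∃ hb : b < a, prev b hb = p})
  refine ⟨(wellFounded_lt (α := ι)).fix step, fun a ha => ?_⟩
  have e : (wellFounded_lt (α := ι)).fix step a =
      Classical.epsilon (Q a ((wellFounded_lt (α := ι)).fix step '' Iio a)) := by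
    rw [WellFounded.fix_eq]
    simp only [step]
    congr 2
    ext p
    simp [Set.mem_image]
  rw [e]
  exact Classical.epsilon_spec ha

theorem main {G : Type} [NormedAddCommGroup G] [IsUltrametricDist G] [SecondCountableTopology G]
    (hG : #G = 𝔠) (D : Fin 2 → AddSubgroup G) (hD : ∀ i, Dense (D i : Set G))
    (hc : ∀ i, (D i : Set G).Countable) (h01 : ∀ z, z ∈ D 0 → z ∈ D 1 → z = 0) :
    ∃ (X : Set G) (Y : Fin 2 → Set G), X = Y 0 ∪ Y 1 ∧
      (∀ i, ∀ z ∈ Y i, ∀ w, w - z ∈ D i → w ∈ Y i) ∧ Nontrivial X ∧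
      ∀ h : X ≃ₜ X, h = Homeomorph.refl X := by
  classical
  let ι := (𝔠 : Cardinal.{0}).ord.ToType
  have hι : #ι = 𝔠 := mk_ord_toType _
  have hIio : ∀ a : ι, #(Iio a) < 𝔠 := fun a => by
    have := mk_Iio_lt a (by simp [ι])
    rwa [hι] at this
  have hseq : #(ℕ → G × G) = #ι := by
    rw [hι]; simp [hG]
  obtain ⟨e⟩ := Cardinal.eq.mp hseq.symm
  let Γ : AddSubgroup G := D 0 ⊔ D 1
  have hΓ : ∀ i, D i ≤ Γ := by
    intro i; fin_cases i
    · exact le_sup_left
    · exact le_sup_right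
  have hΓc : (Γ : Set G).Countable := by
    have : (Γ : Set G) = Set.image2 (· + ·) (D 0 : Set G) (D 1 : Set G) := by
      ext z
      simp only [Γ, SetLike.mem_coe, AddSubgroup.mem_sup, mem_image2]
    rw [this]
    exact (hc 0).image2 (hc 1) _
  let W : Set (G × G) → Set G := fun S => {z | ∃ p ∈ S, z - p.1 ∈ Γ ∨ z - p.2 ∈ Γ}
  have hW : ∀ S : Set (G × G), #S < 𝔠 → #(W S) < 𝔠 := by
    intro S hS
    have hsub : W S ⊆ range (fun t : S × Γ × Bool =>
        (if t.2.2 then t.1.1.1 else t.1.1.2) + (t.2.1 : G)) := by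
      rintro z ⟨p, hp, h | h⟩
      · exact ⟨(⟨p, hp⟩, ⟨_, h⟩, true), by simp⟩
      · exact ⟨(⟨p, hp⟩, ⟨_, h⟩, false), by simp⟩
    refine lt_of_le_of_lt ((mk_le_mk_of_subset hsub).trans mk_range_le) ?_
    have : Countable Γ := hΓc.to_subtype
    rw [mk_prod, lift_id, lift_id]
    exact mul_lt_of_lt aleph0_le_continuum hS (lt_of_le_of_lt mk_le_aleph0 aleph0_lt_continuum)
  let Act : ι → Set (G × G) → G × G → Prop := fun a S p =>
    p ∈ closure (range (e a)) ∧ p.1 ∉ W S ∧ p.2 ∉ W S ∧ p.2 ≠ p.1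
  let Q : ι → Set (G × G) → G × G → Prop := fun a S p =>
    p.1 ∉ W S ∧ ((∃ p', Act a S p') → Act a S p)
  obtain ⟨F, hF⟩ := exists_rec Q
  have hS : ∀ a, #(W (F '' Iio a)) < 𝔠 := fun a =>
    hW _ (lt_of_le_of_lt mk_image_le (hIio a))
  have hQ : ∀ a, Q a (F '' Iio a) (F a) := by
    intro a
    apply hF
    by_cases h : ∃ p', Act a (F '' Iio a) p'
    · obtain ⟨p, hp⟩ := h
      exact ⟨p, hp.2.1, fun _ => hp⟩
    · have : ∃ z, z ∉ W (F '' Iio a) := by
        by_contra hz
        push Not at hz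
        have h1 : W (F '' Iio a) = Set.univ := eq_univ_of_forall hz
        have h2 := hS a
        rw [h1, mk_univ, hG] at h2
        exact lt_irrefl _ h2
      obtain ⟨z, hz⟩ := this
      exact ⟨(z, z), hz, fun h' => absurd h' h⟩
  have hlt : ∀ a b, b < a → (F a).1 - (F b).1 ∉ Γ ∧ (F a).1 - (F b).2 ∉ Γ := by
    intro a b hb
    have := (hQ a).1
    exact ⟨fun h => this ⟨F b, ⟨b, hb, rfl⟩, Or.inl h⟩, fun h => this ⟨F b, ⟨b, hb, rfl⟩, Or.inr h⟩⟩
  have hinj : ∀ a b, (F a).1 - (F b).1 ∈ Γ → a = b := by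
    intro a b h
    rcases lt_trichotomy a b with hab | hab | hab
    · exact absurd (by simpa using Γ.neg_mem h) (hlt b a hab).1
    · exact hab
    · exact absurd h (hlt a b hab).1
  let Y : Fin 2 → Set G := fun i =>
    {z | ∃ a, ((F a).2 - (F a).1 ∈ D i → (F a).2 = (F a).1) ∧ z - (F a).1 ∈ D i}
  have hcond : ∀ a, ∃ i, ((F a).2 - (F a).1 ∈ D i → (F a).2 = (F a).1) := by
    intro a
    by_cases h : (F a).2 - (F a).1 ∈ D 0
    · exact ⟨1, fun h' => sub_eq_zero.mp (h01 _ h h')⟩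
    · exact ⟨0, fun h' => absurd h' h⟩
  have hYX : ∀ i, Y i ⊆ Y 0 ∪ Y 1 := by
    intro i; fin_cases i
    · exact subset_union_left
    · exact subset_union_right
  have hXY : ∀ z ∈ Y 0 ∪ Y 1, ∃ i, z ∈ Y i := by
    rintro z (h | h)
    · exact ⟨0, h⟩
    · exact ⟨1, h⟩
  have hdens : ∀ (a : ι) (z0 : G) (ε : ℝ), 0 < ε →
      ∃ u ∈ Y 0 ∪ Y 1, u - (F a).1 ∈ Γ ∧ dist z0 u < ε := by
    intro a z0 ε hε
    obtain ⟨i, hi⟩ := hcond a
    obtain ⟨d, hd, hd'⟩ := (hD i).exists_dist_lt (z0 - (F a).1) hε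
    refine ⟨(F a).1 + d, hYX i ⟨a, hi, by simpa using hd⟩, by simpa using hΓ i hd, ?_⟩
    rw [dist_eq_norm] at hd' ⊢
    convert hd' using 2
    abel
  have hιinf : Infinite ι := by
    rw [← aleph0_le_mk_iff, hι]; exact aleph0_le_continuum
  have hx : ∀ a, (F a).1 ∈ Y 0 ∪ Y 1 := by
    intro a
    obtain ⟨i, hi⟩ := hcond a
    exact hYX i ⟨a, hi, by simp⟩
  refine ⟨Y 0 ∪ Y 1, Y, rfl, ?_, ?_, ?_⟩
  · rintro i z ⟨a, ha, hz⟩ w hw
    exact ⟨a, ha, by simpa using (D i).add_mem hw hz⟩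
  · obtain ⟨a, b, hab⟩ := exists_pair_ne ι
    refine ⟨⟨_, hx a⟩, ⟨_, hx b⟩, fun h => hab (hinj a b ?_)⟩
    have : (F a).1 = (F b).1 := congrArg Subtype.val h
    rw [this]; simp
  · intro h
    by_contra hne
    have hex : ∃ z0, h z0 ≠ z0 := by
      by_contra hh
      push Not at hh
      exact hne (Homeomorph.ext hh)
    obtain ⟨z0, hz0⟩ := hex
    have hne' : Nonempty (Y 0 ∪ Y 1 : Set G) := ⟨z0⟩
    let s : ℕ → G × G := fun n =>
      ((TopologicalSpace.denseSeq (Y 0 ∪ Y 1 : Set G) n : G),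
        (h (TopologicalSpace.denseSeq (Y 0 ∪ Y 1 : Set G) n) : G))
    let gr : (Y 0 ∪ Y 1 : Set G) → G × G := fun z => ((z : G), (h z : G))
    have hgr : Continuous gr :=
      continuous_subtype_val.prodMk (continuous_subtype_val.comp h.continuous)
    have hs1 : ∀ z, gr z ∈ closure (range s) := by
      intro z
      have h1 : z ∈ closure (range (TopologicalSpace.denseSeq (Y 0 ∪ Y 1 : Set G))) :=
        TopologicalSpace.denseRange_denseSeq _ z
      have h2 := image_closure_subset_closure_image hgr ⟨z, h1, rfl⟩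
      rwa [← range_comp] at h2
    have hs2 : ∀ p ∈ closure (range s), p.1 ∈ Y 0 ∪ Y 1 → p.2 ∈ Y 0 ∪ Y 1 := by
      intro p hp hp1
      obtain ⟨t, ht, hlim⟩ := mem_closure_iff_seq_limit.mp hp
      choose n hn using ht
      let z : ℕ → (Y 0 ∪ Y 1 : Set G) := fun k =>
        TopologicalSpace.denseSeq (Y 0 ∪ Y 1 : Set G) (n k)
      have hz : Filter.Tendsto z Filter.atTop (𝓝 ⟨p.1, hp1⟩) := by
        rw [tendsto_subtype_rng]
        have := (continuous_fst.tendsto p).comp hlim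
        refine this.congr fun k => ?_
        simp only [Function.comp, ← hn k, s, z]
      have h3 : Filter.Tendsto (fun k => (h (z k) : G)) Filter.atTop (𝓝 (h ⟨p.1, hp1⟩ : G)) :=
        ((continuous_subtype_val.comp h.continuous).tendsto _).comp hz
      have h4 : Filter.Tendsto (fun k => (h (z k) : G)) Filter.atTop (𝓝 p.2) := by
        have := (continuous_snd.tendsto p).comp hlim
        refine this.congr fun k => ?_
        simp only [Function.comp, ← hn k, s, z]
      rw [tendsto_nhds_unique h4 h3]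
      exact (h ⟨p.1, hp1⟩).2
    let a0 : ι := e.symm s
    have ha0 : e a0 = s := e.apply_symm_apply s
    have hopen : IsOpen {z | h z ≠ z} := (isClosed_eq h.continuous continuous_id).isOpen_compl
    obtain ⟨ε, hε, hball⟩ := Metric.isOpen_iff.mp hopen z0 hz0
    choose u hu huΓ hud using fun a => hdens a (z0 : G) ε hε
    let v : ι → (Y 0 ∪ Y 1 : Set G) := fun a => ⟨u a, hu a⟩
    have hv : ∀ a, h (v a) ≠ v a := by
      intro a
      apply hball
      rw [Metric.mem_ball, dist_comm]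
      exact hud a
    have huinj : Function.Injective u := by
      intro a b hab
      apply hinj
      have := Γ.sub_mem (huΓ b) (huΓ a)
      rw [hab] at this
      simpa using this
    have hvinj : Function.Injective (fun a => (h (v a) : G)) := by
      intro a b hab
      have h1 : h (v a) = h (v b) := Subtype.ext hab
      exact huinj (congrArg Subtype.val (h.injective h1))
    have hact : ∃ p, Act a0 (F '' Iio a0) p := by
      by_contra hno
      have hcov : (Set.univ : Set ι) ⊆ u ⁻¹' (W (F '' Iio a0)) ∪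
          (fun a => (h (v a) : G)) ⁻¹' (W (F '' Iio a0)) := by
        intro a _
        by_contra hh
        simp only [mem_union, mem_preimage, not_or] at hh
        refine hno ⟨gr (v a), ?_, hh.1, hh.2, fun h' => hv a (Subtype.ext h')⟩
        rw [ha0]; exact hs1 _
      have h1 := (mk_le_mk_of_subset hcov).trans (mk_union_le _ _)
      rw [mk_univ, hι] at h1
      have h2 := add_lt_of_lt aleph0_le_continuum
        (lt_of_le_of_lt (mk_preimage_of_injective u _ huinj) (hS a0))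
        (lt_of_le_of_lt (mk_preimage_of_injective _ _ hvinj) (hS a0))
      exact absurd h1 (not_le.mpr h2)
    obtain ⟨hcl, -, hy, hne2⟩ := (hQ a0).2 hact
    rw [ha0] at hcl
    obtain ⟨i, b, hb, hyb⟩ := hXY _ (hs2 _ hcl (hx a0))
    rcases lt_trichotomy b a0 with hab | hab | hab
    · exact hy ⟨F b, ⟨b, hab, rfl⟩, Or.inl (hΓ i hyb)⟩
    · rw [hab] at hb hyb
      exact hne2 (hb hyb)
    · exact (hlt b a0 hab).2 (by simpa using Γ.neg_mem (hΓ i hyb))

end Pool.Agent.H370Z.Rigid
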